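import Mathlib
import Pool.Agent.Q158.EqD.ZOdd
import Pool.Agent.Q158.EqD.ZSeven
import Pool.Agent.Q158.EqD.MinPol
import Pool.Agent.Q158.EqD.Weyl
import Pool.Agent.H336R2.Z5M.Main

/-!
# The odd zeta values at every finite scale

Let `D_N(y)` be the discrepancy of the numbers `y, 2 y, …, N y` modulo one; `y` is rational if and
only if `D_N(y)` does not tend to zero. We prove quantitative forms, valid
at EVERY finite scale `N`, of the theorems on the number of irrational odd zeta values: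

1. there are `κ, K > 0` such that for every `N ≥ 1` one of the numbers `y = ζ(7), ζ(9), ζ(11), ζ(13)`
   satisfies `D_M(y) ≤ K N ^ (-κ)` for ALL `M ≥ N`;
2. if `2 ^ 132 (b + 1)² m³ log (m + 1) ≤ s²` then there are `κ, K > 0` such that for every `N ≥ 1` at
   least `m` of the numbers `y = ζ(j)`, `b < j ≤ s`, `j` odd, satisfy
   `D_M(y) ≤ K N ^ (-κ)` for ALL `M ≥ N`;
3. the same with auxiliary numbers: for every finite set `Y` of real numbers there are `κ, K > 0` such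
   that for every `N` the field generated by the elements `y ∈ Y` with `D_M(y) > K N ^ (-κ)` for some
   `M ≥ N` does not contain all of `ζ(7), ζ(9), ζ(11), ζ(13)` and, for all `b, m, s` as in 2,
   misses at least `m` of the numbers `ζ(j)`, `b < j ≤ s`, `j` odd;
4. `ζ(5)` looks transcendental or algebraic of degree at least two at every scale: for every `d` there
   are `κ, K > 0` such that for every `N` there is an irreducible polynomial `f = f_N ∈ ℤ[X]` of degree at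
   least two such that every nonconstant `P ∈ ℤ[X]` of degree at most `d` with coefficients at most
   `N ^ κ` either satisfies `D_M(P(ζ(5))) ≤ K N ^ (-κ)` for ALL `M ≥ N`, or is constant modulo `f_N`:
   `f_N` divides `q P - p` for some integers `p` and `q > 0`.

Proof. If `D_M(y) > δ` then `y` has a rational approximation with a denominator `≤ 12 / δ` and the
error at most `16 / (δ M)`. Such approximations are inherited by the elements of the field generated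
by the numbers `y`; they contradict the bounds for the simultaneous approximation of odd zeta
values in `MeasureZeta7To13.lean` and `OddZetaTwoThirds.lean` of this folder. In 4 they give an
integer polynomial `q P - p` with a very small value at `ζ(5)`, and so an irreducible factor with a very
small value. Two such factors with different zeros have a resultant smaller than one, hence
they coincide; the factor is not linear because `ζ(5)` is neither rational nor a Liouville number.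
-/

set_option autoImplicit false

open Real Polynomial

namespace Pool.Agent.Results.MP_c2395a_nt.AtEveryScale

noncomputable section

/-- The number of the `n`, `1 ≤ n ≤ N`, for which the fractional part of `n x` lies in `[a, b)`. -/
def count (x : ℝ) (N : ℕ) (a b : ℝ) : ℕ :=
  ((Finset.Icc 1 N).filter fun n : ℕ => a ≤ Int.fract (n * x) ∧ Int.fract (n * x) < b).card

/-- The discrepancy of `x, 2 x, …, N x` modulo one: the supremum over the intervals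
`[a, b) ⊆ [0, 1)` of the difference between the proportion of the `n ≤ N` with `n x` in `[a, b)`
modulo one and the length of the interval. -/
def discrepancy (x : ℝ) (N : ℕ) : ℝ :=
  sSup {d | ∃ a b : ℝ, 0 ≤ a ∧ a ≤ b ∧ b ≤ 1 ∧ d = |(count x N a b : ℝ) / N - (b - a)|}

/-- `ζ(j)` -/
def zeta (j : ℕ) : ℝ := ∑' n : ℕ, 1 / ((n : ℝ) + 1) ^ j

/-- The discrepancy of `y` is at most `K N ^ (-κ)` at all the scales `M ≥ N`. -/
def Uniform (κ K : ℝ) (N : ℕ) (y : ℝ) : Prop :=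
  ∀ M : ℕ, N ≤ M → discrepancy y M ≤ K * (N : ℝ) ^ (-κ)

/-- The field generated by the elements `y` of `Y` with `D_M(y) > K N ^ (-κ)` for some `M ≥ N`. -/
def badField (Y : Finset ℝ) (κ K : ℝ) (N : ℕ) : Subfield ℝ :=
  Subfield.closure {y | y ∈ Y ∧ ¬ Uniform κ K N y}

theorem resultA :
    (∃ κ K : ℝ, 0 < κ ∧ 0 < K ∧ ∀ N : ℕ, 0 < N →
      ∃ j : ℕ, (j = 7 ∨ j = 9 ∨ j = 11 ∨ j = 13) ∧ Uniform κ K N (zeta j)) ∧
    (∀ b m s : ℕ, 1 ≤ m →
      (2 : ℝ) ^ 132 * ((b : ℝ) + 1) ^ 2 * (m : ℝ) ^ 3 * Real.log (m + 1) ≤ (s : ℝ) ^ 2 →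
      ∃ κ K : ℝ, 0 < κ ∧ 0 < K ∧ ∀ N : ℕ, 0 < N →
        m ≤ Set.ncard {j : ℕ | b < j ∧ j ≤ s ∧ Odd j ∧ Uniform κ K N (zeta j)}) ∧
    (∀ Y : Finset ℝ, ∃ κ K : ℝ, 0 < κ ∧ 0 < K ∧ ∀ N : ℕ, 0 < N →
      (∃ j : ℕ, (j = 7 ∨ j = 9 ∨ j = 11 ∨ j = 13) ∧ zeta j ∉ badField Y κ K N) ∧
      ∀ b m s : ℕ, 1 ≤ m →
        (2 : ℝ) ^ 132 * ((b : ℝ) + 1) ^ 2 * (m : ℝ) ^ 3 * Real.log (m + 1) ≤ (s : ℝ) ^ 2 →
        m ≤ Set.ncard {j : ℕ | b < j ∧ j ≤ s ∧ Odd j ∧ zeta j ∉ badField Y κ K N}) ∧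
    -- the discrepancy tends to zero exactly for the irrational numbers
    (∀ x : ℝ, Filter.Tendsto (fun N : ℕ => discrepancy x N) Filter.atTop (nhds 0) ↔
      Irrational x) := by
  classical
  have hY : ∀ Y : Finset ℝ, ∃ κ K : ℝ, 0 < κ ∧ 0 < K ∧ ∀ N : ℕ, 0 < N →
      (∃ j : ℕ, (j = 7 ∨ j = 9 ∨ j = 11 ∨ j = 13) ∧ zeta j ∉ badField Y κ K N) ∧
      ∀ b m s : ℕ, 1 ≤ m →
        (2 : ℝ) ^ 132 * ((b : ℝ) + 1) ^ 2 * (m : ℝ) ^ 3 * Real.log (m + 1) ≤ (s : ℝ) ^ 2 →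
        m ≤ Set.ncard {j : ℕ | b < j ∧ j ≤ s ∧ Odd j ∧ zeta j ∉ badField Y κ K N} := by
    intro Y
    obtain ⟨κ, K, h1, h2, h3⟩ := Pool.Agent.Q158.EqD.bad_field Y
    refine ⟨κ, K, h1, h2, fun N hN => ?_⟩
    have hset : badField Y κ K N = Subfield.closure
        {y | y ∈ Y ∧ ∃ M : ℕ, N ≤ M ∧ K * (N : ℝ) ^ (-κ) < Pool.Agent.Q158.EqD.disc y M} := by
      unfold badField Uniform
      congr 1
      ext y
      constructor
      · rintro ⟨hy, h⟩
        push Not at h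
        exact ⟨hy, h⟩
      · rintro ⟨hy, h⟩
        refine ⟨hy, ?_⟩
        push Not
        exact h
    rw [hset]
    refine ⟨Pool.Agent.Q158.EqD.poor_7_13 (h3 N hN), ?_⟩
    intro b m s hm hs
    refine (Pool.Agent.Q158.EqD.poor_odd (h3 N hN) b m s 0 hm (by simpa using hs)
      (fun _ => 0)).trans ?_
    apply Set.ncard_le_ncard
    · rintro j ⟨h4, h5, h6, h7⟩
      refine ⟨h4, h5, h6, fun hmem => h7 ?_⟩
      have : (∑' n : ℕ, 1 / ((n : ℝ) + 1) ^ j) =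
          (⟨∑' n : ℕ, 1 / ((n : ℝ) + 1) ^ j, hmem⟩ : Subfield.closure
        {y | y ∈ Y ∧ ∃ M : ℕ, N ≤ M ∧ K * (N : ℝ) ^ (-κ) < Pool.Agent.Q158.EqD.disc y M}) • (1 : ℝ) := by
        rw [Subfield.smul_def, smul_eq_mul, mul_one]
      rw [this]
      exact Submodule.smul_mem _ _ (Submodule.subset_span (Set.mem_insert _ _))
    · exact (Set.finite_Iic s).subset fun j hj => hj.2.1
  have hunif : ∀ (Y : Finset ℝ) (κ K : ℝ) (N : ℕ) (y : ℝ), y ∈ Y → y ∉ badField Y κ K N →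
      Uniform κ K N y := by
    intro Y κ K N y hy hnot
    by_contra hcon
    exact hnot (Subfield.subset_closure ⟨hy, hcon⟩)
  refine ⟨?_, ?_, hY, Pool.Agent.Q158.EqD.tendsto_iff⟩
  · obtain ⟨κ, K, h1, h2, h3⟩ := hY ((Finset.range 14).image zeta)
    refine ⟨κ, K, h1, h2, fun N hN => ?_⟩
    obtain ⟨⟨j, hj, hj2⟩, _⟩ := h3 N hN
    refine ⟨j, hj, hunif _ κ K N _ ?_ hj2⟩
    rw [Finset.mem_image]
    exact ⟨j, Finset.mem_range.2 (by omega), rfl⟩
  · intro b m s hm hs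
    obtain ⟨κ, K, h1, h2, h3⟩ := hY ((Finset.range (s + 1)).image zeta)
    refine ⟨κ, K, h1, h2, fun N hN => ?_⟩
    refine ((h3 N hN).2 b m s hm hs).trans ?_
    apply Set.ncard_le_ncard
    · rintro j ⟨h4, h5, h6, h7⟩
      refine ⟨h4, h5, h6, hunif _ κ K N _ ?_ h7⟩
      rw [Finset.mem_image]
      exact ⟨j, Finset.mem_range.2 (by omega), rfl⟩
    · exact (Set.finite_Iic s).subset fun j hj => hj.2.1

/-- `ζ(5)` -/
def zeta5 : ℝ := ∑' n : ℕ, 1 / ((n : ℝ) + 1) ^ 5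

theorem resultB :
    (∀ d : ℕ, ∃ κ K : ℝ, 0 < κ ∧ 0 < K ∧ ∀ N : ℕ, 0 < N →
      ∃ f : ℤ[X], Irreducible f ∧ 2 ≤ f.natDegree ∧
        ∀ P : ℤ[X], 0 < P.natDegree → P.natDegree ≤ d →
          (∀ i, |(P.coeff i : ℝ)| ≤ (N : ℝ) ^ κ) →
          Uniform κ K N (aeval zeta5 P) ∨ ∃ (q : ℕ) (p : ℤ), 0 < q ∧ f ∣ C (q : ℤ) * P - C p) ∧
    -- the discrepancy tends to zero exactly for the irrational numbers
    (∀ x : ℝ, Filter.Tendsto (fun N : ℕ => discrepancy x N) Filter.atTop (nhds 0) ↔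
      Irrational x) := by
  refine ⟨?_, Pool.Agent.Q158.EqD.tendsto_iff⟩
  obtain ⟨_, _, c, hc, hm⟩ := Pool.Agent.H336R2.Z5M.main
  have hmeas : ∀ (q : ℕ) (p : ℤ), 0 < q → c ≤ (q : ℝ) ^ (6180 : ℝ) * |zeta5 - p / q| := by
    intro q p hq
    have hqp : (0 : ℝ) < q := by exact_mod_cast hq
    have h1 := hm p q hq
    rw [div_le_iff₀ (by positivity)] at h1
    have h1' : c ≤ |zeta5 - (p : ℝ) / q| * (q : ℝ) ^ 6180 := h1
    have e2 : (q : ℝ) ^ (6180 : ℝ) = (q : ℝ) ^ (6180 : ℕ) := by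
      rw [← Real.rpow_natCast]; norm_num
    rw [e2]
    linarith
  intro d
  obtain ⟨κ, K, h1, h2, h3⟩ := Pool.Agent.Q158.EqD.minpol zeta5 c 6180 hc (by norm_num) hmeas d
  refine ⟨κ, K, h1, h2, fun N hN => ?_⟩
  obtain ⟨f, hf1, hf2, hf3⟩ := h3 N hN
  refine ⟨f, hf1, hf2, fun P hP0 hPd hPN => ?_⟩
  by_cases hU : Uniform κ K N (aeval zeta5 P)
  · exact Or.inl hU
  · refine Or.inr (hf3 P hP0 hPd hPN ?_)
    unfold Uniform at hU
    push Not at hU
    exact hU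

theorem result :
    (∃ κ K : ℝ, 0 < κ ∧ 0 < K ∧ ∀ N : ℕ, 0 < N →
      ∃ j : ℕ, (j = 7 ∨ j = 9 ∨ j = 11 ∨ j = 13) ∧ Uniform κ K N (zeta j)) ∧
    (∀ b m s : ℕ, 1 ≤ m →
      (2 : ℝ) ^ 132 * ((b : ℝ) + 1) ^ 2 * (m : ℝ) ^ 3 * Real.log (m + 1) ≤ (s : ℝ) ^ 2 →
      ∃ κ K : ℝ, 0 < κ ∧ 0 < K ∧ ∀ N : ℕ, 0 < N →
        m ≤ Set.ncard {j : ℕ | b < j ∧ j ≤ s ∧ Odd j ∧ Uniform κ K N (zeta j)}) ∧
    (∀ Y : Finset ℝ, ∃ κ K : ℝ, 0 < κ ∧ 0 < K ∧ ∀ N : ℕ, 0 < N →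
      (∃ j : ℕ, (j = 7 ∨ j = 9 ∨ j = 11 ∨ j = 13) ∧ zeta j ∉ badField Y κ K N) ∧
      ∀ b m s : ℕ, 1 ≤ m →
        (2 : ℝ) ^ 132 * ((b : ℝ) + 1) ^ 2 * (m : ℝ) ^ 3 * Real.log (m + 1) ≤ (s : ℝ) ^ 2 →
        m ≤ Set.ncard {j : ℕ | b < j ∧ j ≤ s ∧ Odd j ∧ zeta j ∉ badField Y κ K N}) ∧
    (∀ d : ℕ, ∃ κ K : ℝ, 0 < κ ∧ 0 < K ∧ ∀ N : ℕ, 0 < N →
      ∃ f : ℤ[X], Irreducible f ∧ 2 ≤ f.natDegree ∧
        ∀ P : ℤ[X], 0 < P.natDegree → P.natDegree ≤ d →
          (∀ i, |(P.coeff i : ℝ)| ≤ (N : ℝ) ^ κ) →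
          Uniform κ K N (aeval zeta5 P) ∨ ∃ (q : ℕ) (p : ℤ), 0 < q ∧ f ∣ C (q : ℤ) * P - C p) ∧
    -- the discrepancy tends to zero exactly for the irrational numbers
    (∀ x : ℝ, Filter.Tendsto (fun N : ℕ => discrepancy x N) Filter.atTop (nhds 0) ↔
      Irrational x) :=
  ⟨resultA.1,
    resultA.2.1,
    resultA.2.2.1,
    resultB.1,
    resultB.2⟩

end

end Pool.Agent.Results.MP_c2395a_nt.AtEveryScale
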