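import Pool.Agent.Q203.ZM.Fin

/-!
# A sharper simultaneous measure of irrationality for `ζ(7), ζ(9), ζ(11), ζ(13)`

`Pool/Agent/Results/MP_c2395a_nt/MeasureZeta7To13.lean` evaluates the Hankel determinants of
`Pool/Agent/H343Z/` at rational points `p_j / q` and obtains the exponent `29400`. Here the exponent is
reduced to `435`, with the same determinants. New points:

* the block structure modulo the prime `n` persists as long as `n ^ 7` does not divide `q`
  (`Pool/Agent/Q203/ZM/NonVa.lean`);
* for primes `n < p < 17n/2` the `p`-adic bound of the determinant does not use that the coordinates are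
  `p`-adic integers, only that their norms are at most `p ^ 7` (`Pool/Agent/Q203/ZM/PAd.lean`), so that the
  seventh powers of all skipped primes are removed from the denominator for free; the prime number theorem in
  progressions then gives a suitable `n <= 1.7305 log q` (`Pool/Agent/Q203/ZM/Sel.lean`);
* sharper bounds of the coefficients of the linear forms, factor by factor, compared with the archimedean
  bound of every entry separately, allow perturbations of size `exp (-251.25 n)` instead of `exp (-825 n)`
  (`Pool/Agent/Q203/ZM/Base.lean`, `Rho.lean`, `Pert.lean`).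

Credits: this sharpening helper203; the measure with a larger exponent helper957; the determinants: see
`Pool/Agent/Results/MP_c2395a_nt/OddZeta7To13.lean`.
-/

set_option autoImplicit false

namespace Pool.Agent.Results.MP_c2395a_nt.MeasureZeta7To13Sharp

/-- There is `c > 0` such that for all integers `p₇, p₉, p₁₁, p₁₃` and `q ≥ 1` one of the four numbers
`|ζ(j) - p_j / q|`, `j = 7, 9, 11, 13`, is at least `c / q ^ 435`. -/
theorem result : ∃ c : ℝ, 0 < c ∧ ∀ (p : ℕ → ℤ) (q : ℕ), 0 < q →
    ∃ j : ℕ, (j = 7 ∨ j = 9 ∨ j = 11 ∨ j = 13) ∧
      c / (q : ℝ) ^ 435 ≤ |(∑' n : ℕ, 1 / ((n : ℝ) + 1) ^ j) - (p j : ℝ) / q| :=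
  Pool.Agent.Q203.ZM.main'

end Pool.Agent.Results.MP_c2395a_nt.MeasureZeta7To13Sharp
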