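import Mathlib
import Pool.Agent.Q163.LE.Meas
import Pool.Agent.Q163.LE.ZetaW
import Pool.Agent.TH957.ZM.Fin
import Pool.Agent.W170.Z3.Z
import Pool.Agent.Y801.Z5S.Fin
import Pool.Agent.Dim7.PD.Fin
import Pool.Agent.Dim7.PD.PU
import Pool.Agent.Dim7.PD.AR
import Pool.Agent.Dim7.PD.NV
import Pool.Agent.Dim7.PD.SV
import Pool.Agent.Dim7.PD.RH
import Pool.Agent.Dim7.PD.FX

set_option autoImplicit false

/-!
# Odd zeta values over fields of Liouville numbers

Call a field `F` of real numbers simultaneously Liouville if for any finitely many elements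
`x_1, …, x_m` of `F` and any `w` there are arbitrarily large `q` with `‖q x_i‖ < q ^ (-w)` for all
`i`. Besides `ℚ` such fields are, for instance,

* for a sequence `T_n → ∞` the field of all real numbers `x` which for one `A` and for all `E` have
  rational approximations of height at most `exp (A T_n)` with an error at most `exp (-E T_n)` for
  all large `n` (these fields contain fields of Liouville numbers as considered by Maillet);
* for an infinite set `S` of integers the field generated by all real numbers `x` whose first `N`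
  digits in some base have a partition into `o (log N)` phrases (`N ∈ S`), each of which is a digit
  or a copy of a block which begins earlier.

The theorems on the irrationality and the linear independence of odd zeta values hold over all
such fields in place of `ℚ`: a vector space `V` over `F` of dimension `D ≤ c log s` misses at least
`C ^ (-D) (s² / log s) ^ (1/3)` of the numbers `ζ(3), ζ(5), …, ζ(s)`; they generate an
infinite-dimensional space over `F`; `ζ(3)` and `ζ(5)` are not in `F`, nor is one of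
`ζ(7), ζ(9), ζ(11), ζ(13)`; the space generated by `1, ζ(3), ζ(5), ζ(7)` has dimension at least
three over `F`.

The proofs apply the measures (distances to rational points and rational subspaces) of the starting
files at the simultaneous approximations of the coefficients.
-/

namespace Pool.Agent.Results.MP_c2395a_nt.OverLiouvilleFields

open Filter Topology Pool.Agent.Q163.LE

/-- `ζ(j) = ∑ 1 / (n+1)^j` -/
noncomputable def zt (j : ℕ) : ℝ := ∑' n : ℕ, 1 / ((n : ℝ) + 1) ^ j

/-- the field generated by all real numbers `x` such that, for some base `b`,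
`phrases b x N / log N` tends to `0` as `N` tends to infinity in `S` -/
noncomputable def field (S : Set ℕ) : Subfield ℝ := Subfield.closure {x : ℝ | ∃ b : ℕ, 2 ≤ b ∧
  Tendsto (fun N : ℕ => (phrases b x N : ℝ) / Real.log N) (atTop ⊓ 𝓟 S) (𝓝 0)}

theorem infinite_dim (F : Subfield ℝ) (hF : SimLiouville F) :
    ¬ FiniteDimensional F (Submodule.span F {x : ℝ | ∃ j : ℕ, 3 ≤ j ∧ Odd j ∧ x = zt j}) := by
  intro hfin
  set V := Submodule.span F {x : ℝ | ∃ j : ℕ, 3 ≤ j ∧ Odd j ∧ x = zt j} with hV
  obtain ⟨s, hs⟩ := exists_nat_ge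
    ((2 : ℝ) ^ (132 * (Module.finrank F V + 1)) * (((0 : ℕ) : ℝ) + 1) ^ 2 * ((1 : ℕ) : ℝ) ^ 3 *
      Real.log (((1 : ℕ) : ℝ) + 1) + 1)
  have hs1 : (1 : ℝ) ≤ s := by
    have h1 : 0 ≤ Real.log (((1 : ℕ) : ℝ) + 1) := Real.log_nonneg (by norm_num)
    have h2 : 0 ≤ (2 : ℝ) ^ (132 * (Module.finrank F V + 1)) * (((0 : ℕ) : ℝ) + 1) ^ 2 *
      ((1 : ℕ) : ℝ) ^ 3 * Real.log (((1 : ℕ) : ℝ) + 1) := by positivity
    linarith
  have h1 := zeta_outside hF (b := 0) (K := 1) (s := s) (D := Module.finrank F V) le_rfl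
    (by nlinarith) V hfin le_rfl
  have h2 : {j : ℕ | 0 < j ∧ j ≤ s ∧ Odd j ∧
      ∀ r : F, (∑' n : ℕ, 1 / ((n : ℝ) + 1) ^ j) - r ∉ V}.Nonempty := by
    rw [← Set.ncard_pos ((Set.finite_Icc 0 s).subset fun j hj => ⟨Nat.zero_le _, hj.2.1⟩)]
    omega
  obtain ⟨j, hj1, hj2, hj3, hj4⟩ := h2
  have h3 := hj4 0
  rw [ZeroMemClass.coe_zero, sub_zero] at h3
  by_cases hj : j = 1
  · subst hj
    apply h3
    have h5 : ¬ Summable fun n : ℕ => 1 / ((n : ℝ) + 1) ^ 1 := by
      intro h
      have h6 : Summable fun n : ℕ => 1 / ((n + 1 : ℕ) : ℝ) := by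
        refine h.congr fun n => ?_
        push_cast
        rw [pow_one]
      exact Real.not_summable_one_div_natCast ((summable_nat_add_iff 1).1 h6)
    rw [tsum_eq_zero_of_not_summable h5]
    exact zero_mem _
  · apply h3
    refine Submodule.subset_span ⟨j, ?_, hj3, rfl⟩
    rcases hj3 with ⟨m, hm⟩
    omega

/-- **Odd zeta values over simultaneously Liouville fields.** -/
theorem result :
    -- examples of such fields
    (∀ (T : ℕ → ℝ) (hT : Tendsto T atTop atTop), SimLiouville (ApField T hT)) ∧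
    (∀ S : Set ℕ, S.Infinite → SimLiouville (field S)) ∧
    ∀ F : Subfield ℝ, SimLiouville F →
      -- (1) odd zeta values outside spaces of small dimension
      (∀ b K s D : ℕ, 1 ≤ K →
        (2 : ℝ) ^ (132 * (D + 1)) * ((b : ℝ) + 1) ^ 2 * (K : ℝ) ^ 3 * Real.log (K + 1) ≤
          (s : ℝ) ^ 2 →
        ∀ V : Submodule F ℝ, FiniteDimensional F V → Module.finrank F V ≤ D →
          K ≤ Set.ncard {j : ℕ | b < j ∧ j ≤ s ∧ Odd j ∧ ∀ r : F, zt j - r ∉ V}) ∧
      -- (2) infinite dimension
      (¬ FiniteDimensional F (Submodule.span F {x : ℝ | ∃ j : ℕ, 3 ≤ j ∧ Odd j ∧ x = zt j})) ∧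
      -- (3) single values
      zt 3 ∉ F ∧ zt 5 ∉ F ∧ (zt 7 ∉ F ∨ zt 9 ∉ F ∨ zt 11 ∉ F ∨ zt 13 ∉ F) ∧
      -- (4) dimension
      3 ≤ Module.finrank F (Submodule.span F ({1, zt 3, zt 5, zt 7} : Set ℝ)) := by
  refine ⟨sim_apField, sim_lz, fun F hF => ⟨fun b K s D hK hs V hV hVD =>
    zeta_outside hF hK hs V hV hVD, infinite_dim F hF, ?_, ?_, ?_, ?_⟩⟩
  · obtain ⟨c, hc, h⟩ := Pool.Agent.W170.Z3.Z_main
    obtain ⟨j, hj, h2⟩ := one_outside hF {3} zt 6 c hc (fun p q hq => by
      refine ⟨3, Finset.mem_singleton_self _, le_trans ?_ (h (p 3) q hq)⟩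
      have hq1 : (1 : ℝ) ≤ q := by exact_mod_cast hq
      refine div_le_div_of_nonneg_left hc.le (by positivity) ?_
      rw [← Real.rpow_natCast]
      exact Real.rpow_le_rpow_of_exponent_le hq1 (by norm_num))
    rw [Finset.mem_singleton] at hj
    rwa [hj] at h2
  · obtain ⟨c, hc, h⟩ := Pool.Agent.Y801.Z5S.measure83
    obtain ⟨j, hj, h2⟩ := one_outside hF {5} zt 83 c hc (fun p q hq =>
      ⟨5, Finset.mem_singleton_self _, h (p 5) q hq⟩)
    rw [Finset.mem_singleton] at hj
    rwa [hj] at h2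
  · obtain ⟨c, hc, h⟩ := Pool.Agent.TH957.ZM.main
    obtain ⟨j, hj, h2⟩ := one_outside hF {7, 9, 11, 13} zt 29400 c hc (fun p q hq => by
      obtain ⟨j, hj, h1⟩ := h p q hq
      refine ⟨j, ?_, h1⟩
      simp only [Finset.mem_insert, Finset.mem_singleton]
      exact hj)
    simp only [Finset.mem_insert, Finset.mem_singleton] at hj
    rcases hj with rfl | rfl | rfl | rfl
    · exact Or.inl h2
    · exact Or.inr (Or.inl h2)
    · exact Or.inr (Or.inr (Or.inl h2))
    · exact Or.inr (Or.inr (Or.inr h2))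
  · obtain ⟨c, hc, h⟩ := Pool.Agent.Dim7.PD.main_of Pool.Agent.Dim7.PD.P_unif
      (Pool.Agent.Dim7.PD.AR_of Pool.Agent.Dim7.PD.FN_in Pool.Agent.Dim7.PD.rho_le'
        Pool.Agent.Dim7.PD.BL_le' Pool.Agent.Dim7.PD.sv_add' Pool.Agent.Dim7.PD.sv_entry')
      Pool.Agent.Dim7.PD.nonv
    haveI hfin : FiniteDimensional F (Submodule.span F ({1, zt 3, zt 5, zt 7} : Set ℝ)) :=
      FiniteDimensional.span_of_finite F (Set.toFinite _)
    refine plane hF {3, 5, 7} zt 1070 c hc (fun q a b θ H hq hqH hb => h q a b θ H hq hqH hb)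
      (Submodule.span F ({1, zt 3, zt 5, zt 7} : Set ℝ)) (Submodule.subset_span (by simp)) ?_
    intro i hi
    simp only [Finset.mem_insert, Finset.mem_singleton] at hi
    rcases hi with rfl | rfl | rfl <;> exact Submodule.subset_span (by simp)

end Pool.Agent.Results.MP_c2395a_nt.OverLiouvilleFields
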