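import Pool.Agent.Q203.ZV.Fin

/-!
# The irrationality exponent of `ζ(5)` is at most `61`
-/

set_option autoImplicit false

namespace Pool.Agent.Results.MP_c2395a_nt.ZetaFiveExponent61

/-- (1) `|ζ(5) - p/q| ≥ c / q ^ 61` for all integers `p` and `q ≥ 1`;
(2) `|a + b ζ(5)| ≥ c / |b| ^ 60` for all integers `a`, `b` with `b ≠ 0`. -/
theorem result :
    (∃ c : ℝ, 0 < c ∧ ∀ (p : ℤ) (q : ℕ), 0 < q →
      c / (q : ℝ) ^ 61 ≤ |(∑' n : ℕ, 1 / ((n : ℝ) + 1) ^ 5) - (p : ℝ) / q|) ∧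
    (∃ c : ℝ, 0 < c ∧ ∀ a b : ℤ, b ≠ 0 →
      c / |(b : ℝ)| ^ 60 ≤ |(a : ℝ) + b * (∑' n : ℕ, 1 / ((n : ℝ) + 1) ^ 5)|) :=
  ⟨Pool.Agent.Q203.ZV.measure61, Pool.Agent.Q203.ZV.forms60⟩

end Pool.Agent.Results.MP_c2395a_nt.ZetaFiveExponent61
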